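import Pool.Agent.Q158.WQ.Mass

/-!
# Random families of residues and their entropy
-/

set_option autoImplicit false

namespace Pool.Agent.Q158.WQ

open Finset MeasureTheory Filter Pool.Agent.Q120.ET Pool.Agent.Q120.ME
open scoped Topology

/-- A random family of Wilson quotients: a random residue `W ω p ∈ {0, …, p - 1}` for each prime `p`. -/
structure IsFamily {Ω : Type*} [MeasurableSpace Ω] (W : Ω → ℕ → ℕ) : Prop where
  meas : ∀ p k : ℕ, MeasurableSet {ω | W ω p = k}
  lt : ∀ ω p, p.Prime → W ω p < p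

/-- The probability that `W p = v p` for all `p ∈ F`. -/
noncomputable def law {Ω : Type*} [MeasurableSpace Ω] (μ : Measure Ω) (W : Ω → ℕ → ℕ) (F : Finset ℕ)
    (v : (p : ℕ) → p ∈ F → ℕ) : ℝ := μ.real {ω | ∀ (p : ℕ) (hp : p ∈ F), W ω p = v p hp}

/-- The Shannon entropy (nats) of the residues modulo the primes below `x`. -/
noncomputable def ent {Ω : Type*} [MeasurableSpace Ω] (μ : Measure Ω) (W : Ω → ℕ → ℕ) (x : ℕ) : ℝ :=
  ∑ v ∈ (pr x).pi (fun p => range p), Real.negMulLog (law μ W (pr x) v)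

/-- The largest possible entropy `∑_{p < x} log p`. -/
noncomputable def theta (x : ℕ) : ℝ := ∑ p ∈ pr x, Real.log p

variable {Ω : Type*} [MeasurableSpace Ω] {μ : Measure Ω} {W : Ω → ℕ → ℕ}

/-- the set of the primes of `F` at which `v` hits the target `c` -/
def Z (c : ℕ → ℕ) (F : Finset ℕ) (v : (p : ℕ) → p ∈ F → ℕ) : Finset ℕ :=
  (F.attach.filter (fun q => v q.1 q.2 = c q.1)).image Subtype.val

theorem mem_Z {c : ℕ → ℕ} {F : Finset ℕ} {v : (p : ℕ) → p ∈ F → ℕ} {p : ℕ} :
    p ∈ Z c F v ↔ ∃ hp : p ∈ F, v p hp = c p := by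
  rw [Z, mem_image]
  constructor
  · rintro ⟨⟨q, hq⟩, h1, rfl⟩
    exact ⟨hq, (mem_filter.1 h1).2⟩
  · rintro ⟨hp, h⟩
    exact ⟨⟨p, hp⟩, mem_filter.2 ⟨mem_attach _ _, h⟩, rfl⟩

/-- the vectors hitting the target exactly at `T` -/
def V (c : ℕ → ℕ) (F T : Finset ℕ) : Finset ((p : ℕ) → p ∈ F → ℕ) :=
  F.pi (fun p => if p ∈ T then {c p} else (range p).erase (c p))

theorem V_eq {c : ℕ → ℕ} {F : Finset ℕ} (hc : ∀ p ∈ F, c p < p) {T : Finset ℕ} (hT : T ⊆ F) :
    (F.pi (fun p => range p)).filter (fun v => Z c F v = T) = V c F T := by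
  ext v
  rw [mem_filter, V, Finset.mem_pi, Finset.mem_pi]
  constructor
  · rintro ⟨h1, h2⟩ p hp
    split_ifs with h
    · rw [← h2, mem_Z] at h
      obtain ⟨_, h3⟩ := h
      rw [mem_singleton]
      exact h3
    · rw [mem_erase]
      refine ⟨fun h3 => h ?_, h1 p hp⟩
      rw [← h2, mem_Z]
      exact ⟨hp, h3⟩
  · intro h
    refine ⟨fun p hp => ?_, ?_⟩
    · have h1 := h p hp
      split_ifs at h1 with h2
      · rw [mem_singleton.1 h1]
        exact mem_range.2 (hc p hp)
      · exact (mem_erase.1 h1).2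
    · ext p
      rw [mem_Z]
      constructor
      · rintro ⟨hp, h1⟩
        by_contra h2
        have h3 := h p hp
        rw [if_neg h2, mem_erase] at h3
        exact h3.1 h1
      · intro h1
        refine ⟨hT h1, ?_⟩
        have h3 := h p (hT h1)
        rw [if_pos h1, mem_singleton] at h3
        exact h3

theorem card_V {c : ℕ → ℕ} {F : Finset ℕ} (hc : ∀ p ∈ F, c p < p) (T : Finset ℕ) :
    (V c F T).card = ∏ p ∈ F, if p ∈ T then 1 else p - 1 := by
  rw [V, card_pi]
  refine prod_congr rfl (fun p hp => ?_)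
  split_ifs
  · simp
  · rw [card_erase_of_mem (mem_range.2 (hc p hp)), card_range]

theorem bern_V {c : ℕ → ℕ} {F : Finset ℕ} (hF : ∀ p ∈ F, p.Prime) (hc : ∀ p ∈ F, c p < p) (T : Finset ℕ) :
    bern rate F T * ∏ p ∈ F, (p : ℝ) = (V c F T).card := by
  rw [card_V hc, bern, ← prod_mul_distrib, Nat.cast_prod]
  refine prod_congr rfl (fun p hp => ?_)
  have h1 : (1 : ℝ) ≤ p := by exact_mod_cast (hF p hp).one_lt.le
  split_ifs
  · unfold rate
    field_simp
    simp
  · unfold rate
    rw [Nat.cast_sub (hF p hp).one_lt.le]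
    field_simp
    simp

theorem bern_pos {F : Finset ℕ} (hF : ∀ p ∈ F, p.Prime) (T : Finset ℕ) : 0 < bern rate F T := by
  unfold bern
  refine prod_pos (fun p hp => ?_)
  have h1 := rates.pos p (hF p hp)
  have h2 := rates.lt_one p (hF p hp)
  split_ifs
  · exact h1
  · linarith

/-- the set of the primes at which the family hits the target -/
def hit (W : Ω → ℕ → ℕ) (c : ℕ → ℕ) (ω : Ω) : Set ℕ := {p | W ω p = c p}

theorem isRandomSet_hit (hW : IsFamily W) (c : ℕ → ℕ) : IsRandomSet (hit W c) := fun n => hW.meas n (c n)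

theorem lawOn_hit [IsProbabilityMeasure μ] (hW : IsFamily W) {c : ℕ → ℕ} {F : Finset ℕ} (hF : ∀ p ∈ F, p.Prime)
    (hc : ∀ p ∈ F, c p < p) {T : Finset ℕ} (hT : T ⊆ F) :
    lawOn μ (hit W c) F T = ∑ v ∈ V c F T, law μ W F v := by
  have h1 : {ω | ∀ n ∈ F, (n ∈ hit W c ω ↔ n ∈ T)} = ⋃ v ∈ V c F T, {ω | ∀ (p : ℕ) (hp : p ∈ F), W ω p = v p hp} := by
    ext ω
    simp only [Set.mem_ofPred_eq, Set.mem_iUnion, exists_prop]
    constructor
    · intro h
      refine ⟨fun p _ => W ω p, ?_, fun p hp => rfl⟩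
      rw [V, Finset.mem_pi]
      intro p hp
      split_ifs with h2
      · exact mem_singleton.2 ((h p hp).2 h2)
      · rw [mem_erase, mem_range]
        exact ⟨fun h3 => h2 ((h p hp).1 h3), hW.lt ω p (hF p hp)⟩
    · rintro ⟨v, hv, h2⟩ p hp
      have h3 := Finset.mem_pi.1 hv p hp
      split_ifs at h3 with h4
      · have h5 := mem_singleton.1 h3
        simp only [h4, iff_true]
        change W ω p = c p
        rw [h2 p hp, h5]
      · rw [mem_erase] at h3
        simp only [h4, iff_false]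
        intro h5
        apply h3.1
        rw [← h2 p hp]
        exact h5
  unfold lawOn law
  rw [h1, measureReal_biUnion_finset]
  · intro v _ v' _ hne
    rw [Function.onFun, Set.disjoint_left]
    intro ω h2 h3
    apply hne
    funext p hp
    exact (h2 p hp).symm.trans (h3 p hp)
  · intro v _
    have h2 : {ω | ∀ (p : ℕ) (hp : p ∈ F), W ω p = v p hp} = ⋂ q ∈ F.attach, {ω | W ω q.1 = v q.1 q.2} := by
      ext ω
      simp
    rw [h2]
    exact Finset.measurableSet_biInter _ (fun q _ => hW.meas _ _)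

/-- The relative entropy of the set of hits is at most the entropy deficit of the family. -/
theorem relEnt_hit_le [IsProbabilityMeasure μ] (hW : IsFamily W) {c : ℕ → ℕ} (hc : ∀ p : ℕ, p.Prime → c p < p) (x : ℕ) :
    relEnt rate μ (hit W c) (ind P x) ≤ theta x - ent μ W x := by
  rw [ind_eq]
  obtain ⟨F, hFd⟩ : ∃ F, F = pr x := ⟨_, rfl⟩
  have hF : ∀ p ∈ F, p.Prime := fun p hp => (mem_pr.1 (hFd ▸ hp)).2
  have hcF : ∀ p ∈ F, c p < p := fun p hp => hc p (hF p hp)
  have hZ : ∀ v ∈ F.pi (fun p => range p), Z c F v ∈ F.powerset := by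
    intro v _
    rw [mem_powerset]
    intro p hp
    exact (mem_Z.1 hp).1
  have hpp : 0 < ∏ p ∈ F, (p : ℝ) := prod_pos (fun p hp => by exact_mod_cast (hF p hp).pos)
  have hlog : Real.log (∏ p ∈ F, (p : ℝ)) = ∑ p ∈ F, Real.log p :=
    Real.log_prod (fun p hp => by exact_mod_cast (hF p hp).pos.ne')
  have h1 : ∑ v ∈ F.pi (fun p => range p), Real.negMulLog (law μ W F v) =
      ∑ T ∈ F.powerset, ∑ v ∈ V c F T, Real.negMulLog (law μ W F v) := by
    rw [← sum_fiberwise_of_maps_to hZ]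
    refine sum_congr rfl (fun T hT => ?_)
    rw [V_eq hcF (mem_powerset.1 hT)]
  have h2 : ∑ T ∈ F.powerset, lawOn μ (hit W c) F T = 1 := sum_law (isRandomSet_hit hW c) F
  have h3 : ∀ T ∈ F.powerset, lawOn μ (hit W c) F T * Real.log (lawOn μ (hit W c) F T / bern rate F T) ≤
      lawOn μ (hit W c) F T * Real.log (∏ p ∈ F, (p : ℝ)) - ∑ v ∈ V c F T, Real.negMulLog (law μ W F v) := by
    intro T hT
    obtain ⟨L, hL⟩ : ∃ L, L = lawOn μ (hit W c) F T := ⟨_, rfl⟩
    have hL0 : 0 ≤ L := by rw [hL]; exact measureReal_nonneg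
    have hs : L = ∑ v ∈ V c F T, law μ W F v := by rw [hL]; exact lawOn_hit hW hF hcF (mem_powerset.1 hT)
    have hb := bern_V hF hcF T
    have hbp := bern_pos hF T
    obtain ⟨k, hk⟩ : ∃ k : ℝ, k = (V c F T).card := ⟨_, rfl⟩
    have hkp : 0 < k := by rw [hk, ← hb]; positivity
    have hbk : bern rate F T = k / ∏ p ∈ F, (p : ℝ) := by
      rw [hk, ← hb]; field_simp
    have hj : ∑ v ∈ V c F T, Real.negMulLog (law μ W F v) ≤ k * Real.negMulLog (L / k) := by
      have h4 := Real.concaveOn_negMulLog.le_map_sum (t := V c F T) (w := fun _ => 1 / k)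
        (p := fun v => law μ W F v) (fun v _ => by positivity)
        (by rw [sum_const, nsmul_eq_mul, ← hk]; field_simp)
        (fun v _ => Set.mem_Ici.2 measureReal_nonneg)
      simp only [smul_eq_mul] at h4
      rw [← mul_sum, ← mul_sum, ← hs] at h4
      rw [one_div_mul_eq_div, div_le_iff₀ hkp, one_div_mul_eq_div] at h4
      linarith
    rw [← hL]
    have h5 : L * Real.log (L / bern rate F T) = L * Real.log (∏ p ∈ F, (p : ℝ)) - k * Real.negMulLog (L / k) := by
      rcases eq_or_lt_of_le hL0 with h6 | h6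
      · rw [← h6]
        simp
      · rw [Real.negMulLog, hbk, Real.log_div h6.ne' (by positivity), Real.log_div h6.ne' hkp.ne',
          Real.log_div hkp.ne' hpp.ne']
        field_simp
        ring
    rw [h5]
    linarith
  unfold relEnt theta ent
  rw [← hFd, h1]
  refine (sum_le_sum h3).trans (le_of_eq ?_)
  rw [sum_sub_distrib, ← sum_mul, h2, one_mul, hlog]

end Pool.Agent.Q158.WQ
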