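import Pool.Agent.Q158.WQ.Ent

/-!
# A random set of primes as the set of the zeros of a random family of residues of the same information
-/

set_option autoImplicit false

namespace Pool.Agent.Q158.WQ

open Finset MeasureTheory Filter Pool.Agent.Q120.ET Pool.Agent.Q120.ME
open scoped Topology

/-- The space of the nonzero residues (minus one). -/
abbrev X : Type := (n : ℕ) → Fin (n - 2 + 1)

noncomputable def κ (n : ℕ) : Measure (Fin (n - 2 + 1)) := (PMF.uniformOfFintype (Fin (n - 2 + 1))).toMeasure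

noncomputable instance (n : ℕ) : IsProbabilityMeasure (κ n) := by
  unfold κ
  infer_instance

noncomputable def K : Measure X := Measure.infinitePi κ

noncomputable instance : IsProbabilityMeasure K := by
  unfold K
  infer_instance

open Classical in
/-- The lifted family. -/
noncomputable def lift {Ω : Type} (A : Ω → Set ℕ) (z : Ω × X) (p : ℕ) : ℕ :=
  if p ∈ A z.1 then 0 else (z.2 p).val + 1

variable {Ω : Type} {A : Ω → Set ℕ}

theorem lift_zero (z : Ω × X) (p : ℕ) : lift A z p = 0 ↔ p ∈ A z.1 := by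
  unfold lift
  split_ifs with h
  · simp [h]
  · simp [h]

variable [MeasurableSpace Ω] {μ : Measure Ω}

theorem isFamily_lift (hA : IsRandomSet A) : IsFamily (lift A) where
  meas := by
    intro p k
    have h1 : MeasurableSet {z : Ω × X | p ∈ A z.1} := measurable_fst (hA p)
    have h2 : MeasurableSet {z : Ω × X | (z.2 p).val + 1 = k} := by
      have h3 : Measurable (fun z : Ω × X => z.2 p) := (measurable_pi_apply p).comp measurable_snd
      exact h3 (MeasurableSet.of_discrete (s := {j : Fin (p - 2 + 1) | j.val + 1 = k}))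
    rcases Nat.eq_zero_or_pos k with h | h
    · have h4 : {z : Ω × X | lift A z p = k} = {z : Ω × X | p ∈ A z.1} := by
        ext z
        simp only [Set.mem_ofPred_eq]
        rw [h, lift_zero]
      rw [h4]
      exact h1
    · have h4 : {z : Ω × X | lift A z p = k} = {z : Ω × X | p ∈ A z.1}ᶜ ∩ {z : Ω × X | (z.2 p).val + 1 = k} := by
        ext z
        simp only [Set.mem_ofPred_eq, Set.mem_inter_iff, Set.mem_compl_iff]
        unfold lift
        split_ifs with h5
        · simp only [h5, not_true_eq_false, false_and, iff_false]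
          omega
        · simp [h5]
      rw [h4]
      exact h1.compl.inter h2
  lt := by
    intro z p hp
    have h1 := hp.two_le
    unfold lift
    split_ifs
    · omega
    · have h2 := (z.2 p).isLt
      omega

theorem κ_real {p a : ℕ} (h1 : 2 ≤ p) (h2 : 1 ≤ a) (h3 : a < p) :
    (κ p {j | j.val + 1 = a}) = ((p - 1 : ℕ) : ENNReal)⁻¹ := by
  have h4 : {j : Fin (p - 2 + 1) | j.val + 1 = a} = {⟨a - 1, by omega⟩} := by
    ext j
    rw [Set.mem_ofPred_eq, Set.mem_singleton_iff, Fin.ext_iff]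
    simp only
    omega
  unfold κ
  rw [h4, PMF.toMeasure_apply_singleton _ _ (MeasurableSet.singleton _), PMF.uniformOfFintype_apply, Fintype.card_fin]
  congr 2
  omega

open Classical in
theorem law_lift [IsProbabilityMeasure μ] (hA : IsRandomSet A) {F : Finset ℕ} (hF : ∀ p ∈ F, p.Prime) {T : Finset ℕ} (hT : T ⊆ F)
    {v : (p : ℕ) → p ∈ F → ℕ} (hv : v ∈ V (fun _ => 0) F T) :
    law (μ.prod K) (lift A) F v = lawOn μ A F T / (V (fun _ => 0) F T).card := by
  have h1 : {z : Ω × X | ∀ (p : ℕ) (hp : p ∈ F), lift A z p = v p hp} =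
      {ω | ∀ n ∈ F, (n ∈ A ω ↔ n ∈ T)} ×ˢ
        (Set.pi ((F \ T : Finset ℕ) : Set ℕ) (fun p => {j : Fin (p - 2 + 1) | j.val + 1 = if h : p ∈ F then v p h else 0})) := by
    ext z
    rw [Set.mem_prod, Set.mem_ofPred_eq, Set.mem_ofPred_eq, Set.mem_pi]
    have h0 : ∀ (p : ℕ) (hp : p ∈ F), (p ∈ T ↔ v p hp = 0) := by
      intro p hp
      have h3 := Finset.mem_pi.1 hv p hp
      split_ifs at h3 with h4
      · simp [h4, mem_singleton.1 h3]
      · rw [mem_erase] at h3
        simp [h4, h3.1]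
    constructor
    · intro h
      constructor
      · intro n hn
        rw [h0 n hn, ← h n hn, lift_zero]
      · intro p hp
        rw [mem_coe, Finset.mem_sdiff] at hp
        rw [Set.mem_ofPred_eq, dif_pos hp.1, ← h p hp.1]
        have h5 : p ∉ A z.1 := by
          rw [← lift_zero, h p hp.1, ← h0 p hp.1]
          exact hp.2
        unfold lift
        rw [if_neg h5]
    · rintro ⟨h2, h3⟩ p hp
      unfold lift
      split_ifs with h4
      · exact ((h0 p hp).1 ((h2 p hp).1 h4)).symm
      · have h5 := h3 p (by rw [mem_coe, Finset.mem_sdiff]; exact ⟨hp, fun h6 => h4 ((h2 p hp).2 h6)⟩)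
        rw [Set.mem_ofPred_eq, dif_pos hp] at h5
        exact h5
  unfold law lawOn
  rw [h1, measureReal_def, Measure.prod_prod, ENNReal.toReal_mul, ← measureReal_def, div_eq_mul_inv]
  congr 1
  unfold K
  rw [Measure.infinitePi_pi _ (fun p _ => MeasurableSet.of_discrete)]
  have h2 : ∀ p ∈ F \ T, κ p {j : Fin (p - 2 + 1) | j.val + 1 = if h : p ∈ F then v p h else 0} = ((p - 1 : ℕ) : ENNReal)⁻¹ := by
    intro p hp
    rw [Finset.mem_sdiff] at hp
    rw [dif_pos hp.1]
    have h3 := Finset.mem_pi.1 hv p hp.1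
    rw [if_neg hp.2, mem_erase, mem_range] at h3
    exact κ_real (hF p hp.1).two_le (Nat.one_le_iff_ne_zero.2 h3.1) h3.2
  rw [prod_congr rfl h2, card_V (fun p hp => (hF p hp).pos), ENNReal.toReal_prod]
  have h3 : ∏ p ∈ F, (if p ∈ T then 1 else p - 1) = ∏ p ∈ F \ T, (p - 1) := by
    rw [← prod_sdiff hT]
    have h4 : ∏ p ∈ T, (if p ∈ T then 1 else p - 1) = 1 := prod_eq_one (fun p hp => by rw [if_pos hp])
    rw [h4, mul_one]
    exact prod_congr rfl (fun p hp => by rw [if_neg (Finset.mem_sdiff.1 hp).2])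
  rw [h3, Nat.cast_prod, ← prod_inv_distrib]
  refine prod_congr rfl (fun p _ => ?_)
  rw [ENNReal.toReal_inv, ENNReal.toReal_natCast]

/-- The lifted family has the information of the random set. -/
theorem ent_lift [IsProbabilityMeasure μ] (hA : IsRandomSet A) (x : ℕ) :
    theta x - ent (μ.prod K) (lift A) x = relEnt rate μ A (ind P x) := by
  rw [ind_eq]
  obtain ⟨F, hFd⟩ : ∃ F, F = pr x := ⟨_, rfl⟩
  obtain ⟨c, hcd⟩ : ∃ c : ℕ → ℕ, c = fun _ => 0 := ⟨_, rfl⟩
  have hF : ∀ p ∈ F, p.Prime := fun p hp => (mem_pr.1 (hFd ▸ hp)).2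
  have hcF : ∀ p ∈ F, c p < p := fun p hp => by rw [hcd]; exact (hF p hp).pos
  have hZ : ∀ v ∈ F.pi (fun p => range p), Z c F v ∈ F.powerset := by
    intro v _
    rw [mem_powerset]
    intro p hp
    exact (mem_Z.1 hp).1
  have hpp : 0 < ∏ p ∈ F, (p : ℝ) := prod_pos (fun p hp => by exact_mod_cast (hF p hp).pos)
  have hlog : Real.log (∏ p ∈ F, (p : ℝ)) = ∑ p ∈ F, Real.log p :=
    Real.log_prod (fun p hp => by exact_mod_cast (hF p hp).pos.ne')
  have h1 : ∑ v ∈ F.pi (fun p => range p), Real.negMulLog (law (μ.prod K) (lift A) F v) =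
      ∑ T ∈ F.powerset, ∑ v ∈ V c F T, Real.negMulLog (law (μ.prod K) (lift A) F v) := by
    rw [← sum_fiberwise_of_maps_to hZ]
    refine sum_congr rfl (fun T hT => ?_)
    rw [V_eq hcF (mem_powerset.1 hT)]
  have h2 : ∑ T ∈ F.powerset, lawOn μ A F T = 1 := sum_law hA F
  have h3 : ∀ T ∈ F.powerset, lawOn μ A F T * Real.log (lawOn μ A F T / bern rate F T) =
      lawOn μ A F T * Real.log (∏ p ∈ F, (p : ℝ)) - ∑ v ∈ V c F T, Real.negMulLog (law (μ.prod K) (lift A) F v) := by
    intro T hT
    obtain ⟨L, hL⟩ : ∃ L, L = lawOn μ A F T := ⟨_, rfl⟩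
    have hL0 : 0 ≤ L := by rw [hL]; exact measureReal_nonneg
    have hb := bern_V hF hcF T
    have hbp := bern_pos hF T
    obtain ⟨k, hk⟩ : ∃ k : ℝ, k = (V c F T).card := ⟨_, rfl⟩
    have hkp : 0 < k := by rw [hk, ← hb]; positivity
    have hbk : bern rate F T = k / ∏ p ∈ F, (p : ℝ) := by
      rw [hk, ← hb]; field_simp
    have hj : ∑ v ∈ V c F T, Real.negMulLog (law (μ.prod K) (lift A) F v) = k * Real.negMulLog (L / k) := by
      rw [sum_congr rfl (fun v hv => by
        rw [law_lift hA hF (mem_powerset.1 hT) (by rw [← hcd]; exact hv), ← hcd, ← hL, ← hk])]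
      rw [sum_const, nsmul_eq_mul, ← hk]
    rw [hj, ← hL]
    rcases eq_or_lt_of_le hL0 with h6 | h6
    · rw [← h6]
      simp
    · rw [Real.negMulLog, hbk, Real.log_div h6.ne' (by positivity), Real.log_div h6.ne' hkp.ne',
        Real.log_div hkp.ne' hpp.ne']
      field_simp
      ring
  unfold relEnt theta ent
  rw [← hFd, h1, sum_congr rfl h3, sum_sub_distrib, ← sum_mul, h2, one_mul, hlog]

end Pool.Agent.Q158.WQ
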