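import Pool.Agent.Q158.WQ.Lift

/-!
# The Wilson primes of random families of Wilson quotients of given entropy
-/

set_option autoImplicit false

namespace Pool.Agent.Q158.WQ

open Finset MeasureTheory Filter Pool.Agent.Q120.ET Pool.Agent.Q120.ME
open scoped Topology

/-- The number of the primes `p < x` with `W p = c p`. -/
def num {Ω : Type*} (W : Ω → ℕ → ℕ) (c : ℕ → ℕ) (ω : Ω) (x : ℕ) : ℕ := ((pr x).filter (fun p => W ω p = c p)).card

/-- Class `δ`: the entropy up to `x` is at least `θ(x) - (δ + o(1)) log log x`. -/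
def Cls (δ : ℝ) {Ω : Type*} [MeasurableSpace Ω] (μ : Measure Ω) (W : Ω → ℕ → ℕ) : Prop :=
  IsFamily W ∧ ∀ ε : ℝ, 0 < ε → ∀ᶠ x : ℕ in atTop, theta x - (δ + ε) * ll x ≤ ent μ W x

/-- A target residue for each prime. -/
def IsTarget (c : ℕ → ℕ) : Prop := ∀ p : ℕ, p.Prime → c p < p

theorem isTarget_zero : IsTarget (fun _ => 0) := fun _ hp => hp.pos

theorem cnt_hit {Ω : Type*} (W : Ω → ℕ → ℕ) (c : ℕ → ℕ) (ω : Ω) (x : ℕ) : cnt P (hit W c ω) x = num W c ω x := by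
  classical
  unfold cnt num
  rw [ind_eq]
  congr 1
  ext p
  rw [mem_filter, mem_filter]
  rfl

theorem hit_lift {Ω : Type} (A : Ω → Set ℕ) (z : Ω × X) : hit (lift A) (fun _ => 0) z = A z.1 := by
  ext p
  change lift A z p = 0 ↔ _
  exact lift_zero z p

theorem evt : J_EVT := Pool.Agent.Q184.ME.t_EVT Pool.Agent.Q26.ME.t_DV

theorem fin_bound {Ω : Type} [MeasurableSpace Ω] {μ : Measure Ω} [IsProbabilityMeasure μ] {A : Ω → Set ℕ}
    (hA : IsRandomSet A) {N x : ℕ} (hx : N ≤ x) :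
    μ.real {ω | ∀ n ∈ A ω, n ∈ P → n < N} * (mass P rate x - mass P rate N) ≤ relEnt rate μ A (ind P x) + Real.log 2 := by
  classical
  have hF : ∀ n ∈ ind P x, 0 < rate n ∧ rate n < 1 := fun n hn =>
    ⟨rates.pos n (Pool.Agent.Q24.ME.mem_ind.1 hn).2, rates.lt_one n (Pool.Agent.Q24.ME.mem_ind.1 hn).2⟩
  have h1 := (evt rate (ind P x) hF Ω μ A hA).2 (fun T => ∀ n ∈ T, n < N)
    (mass P rate x - mass P rate N) (by
      rw [Pool.Agent.Q24.ME.sum_bern_below, ← Pool.Agent.Q24.ME.mass_sub P rate hx]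
      exact Pool.Agent.Q24.ME.prod_below_le rate _ N (fun n hn => (hF n hn).2))
  have h2 : μ.real {ω | ∀ n ∈ A ω, n ∈ P → n < N} ≤ μ.real {ω | ∀ n ∈ tr A (ind P x) ω, n < N} := by
    refine measureReal_mono ?_
    intro ω hω n hn
    rw [mem_tr, Pool.Agent.Q24.ME.mem_ind] at hn
    exact hω n hn.2 hn.1.2
  have h3 : 0 ≤ mass P rate x - mass P rate N := by
    rw [← Pool.Agent.Q24.ME.mass_sub P rate hx]
    exact Finset.sum_nonneg (fun n hn => (hF n (mem_filter.1 hn).1).1.le)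
  have := mul_le_mul_of_nonneg_right h2 h3
  linarith

/-- infinitely many elements, almost surely, if the information is `o(log log x)` along some `x → ∞` -/
theorem infinite_of {Ω : Type} [MeasurableSpace Ω] {μ : Measure Ω} [IsProbabilityMeasure μ] {A : Ω → Set ℕ}
    (hA : IsRandomSet A) {d : ℕ → ℝ} (hd : ∀ ε : ℝ, 0 < ε → ∃ᶠ x : ℕ in atTop, d x < ε * ll x)
    (hD : ∀ᶠ x : ℕ in atTop, relEnt rate μ A (ind P x) ≤ d x) : ∀ᵐ ω ∂μ, (A ω ∩ P).Infinite := by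
  have h1 : ∀ N : ℕ, μ.real {ω | ∀ n ∈ A ω, n ∈ P → n < N} = 0 := by
    intro N
    by_contra hne
    obtain ⟨t, ht⟩ : ∃ t, t = μ.real {ω | ∀ n ∈ A ω, n ∈ P → n < N} := ⟨_, rfl⟩
    have ht0 : 0 < t := lt_of_le_of_ne (by rw [ht]; exact measureReal_nonneg) (by rw [ht]; exact Ne.symm hne)
    have hbig := ll_tend.eventually (eventually_gt_atTop ((t * mass P rate N + Real.log 2) / (t / 4)))
    have hr := mass_ratio.eventually (lt_mem_nhds (show (1 / 2 : ℝ) < 1 by norm_num))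
    obtain ⟨x, hx1, hx2, hx3, hx4, hx5, hx6⟩ := ((hd (t / 4) (by linarith)).and_eventually
      (hD.and (hbig.and (hr.and ((eventually_ge_atTop N).and (ll_tend.eventually_gt_atTop 0)))))).exists
    have h2 := fin_bound (μ := μ) hA hx5
    rw [← ht] at h2
    rw [lt_div_iff₀ hx6] at hx4
    rw [div_lt_iff₀ (by linarith)] at hx3
    nlinarith [mul_le_mul_of_nonneg_left hx4.le ht0.le]
  have h2 : ∀ N : ℕ, μ {ω | ∀ n ∈ A ω, n ∈ P → n < N} = 0 := fun N => (measureReal_eq_zero_iff).1 (h1 N)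
  rw [ae_iff]
  refine measure_mono_null ?_ (measure_iUnion_null h2)
  intro ω hω
  rw [Set.mem_iUnion]
  have h3 : (A ω ∩ P).Finite := Set.not_infinite.1 hω
  exact (finite_iff' P (A ω)).1 h3

/-- a property of `z.1` that holds almost surely for the product holds almost surely -/
theorem ae_fst {Ω : Type} [MeasurableSpace Ω] {μ : Measure Ω} [IsProbabilityMeasure μ] {Q : Ω → Prop}
    (h : ∀ᵐ z ∂(μ.prod K), Q z.1) : ∀ᵐ ω ∂μ, Q ω := by
  rw [ae_iff] at h ⊢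
  have h1 : {z : Ω × X | ¬ Q z.1} = {ω | ¬ Q ω} ×ˢ Set.univ := by
    ext z
    simp
  rw [h1, Measure.prod_prod, measure_univ, mul_one] at h
  exact h

theorem ae_fst' {Ω : Type} [MeasurableSpace Ω] {μ : Measure Ω} [IsProbabilityMeasure μ] {Q : Ω → Prop}
    (h : ∀ᵐ ω ∂μ, Q ω) : ∀ᵐ z ∂(μ.prod K), Q z.1 := by
  rw [ae_iff] at h ⊢
  have h1 : {z : Ω × X | ¬ Q z.1} = {ω | ¬ Q ω} ×ˢ Set.univ := by
    ext z
    simp
  rw [h1, Measure.prod_prod, measure_univ, mul_one]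
  exact h

theorem finite_eq {Ω : Type*} (W : Ω → ℕ → ℕ) (c : ℕ → ℕ) (ω : Ω) :
    {p : ℕ | p.Prime ∧ W ω p = c p} = hit W c ω ∩ P := by
  ext p
  change (p.Prime ∧ W ω p = c p) ↔ (W ω p = c p ∧ p.Prime)
  exact and_comm

/-- from a random set of class `δ` to a family of class `δ` -/
theorem cls_lift {Ω : Type} [MeasurableSpace Ω] {μ : Measure Ω} [IsProbabilityMeasure μ] {A : Ω → Set ℕ} {δ : ℝ} (hδ : 0 ≤ δ)
    (h : GCls P rate δ μ A) : Cls δ (μ.prod K) (lift A) := by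
  refine ⟨isFamily_lift h.1, fun ε hε => ?_⟩
  filter_upwards [(cls_iff (fun x => relEnt rate μ A (ind P x)) δ hδ).1 h.2 ε hε] with x hx
  have := ent_lift (μ := μ) h.1 x
  linarith

/-- from a family of class `δ` to a random set of class `δ` -/
theorem gcls_hit {Ω : Type} [MeasurableSpace Ω] {μ : Measure Ω} [IsProbabilityMeasure μ] {W : Ω → ℕ → ℕ} {δ : ℝ} (hδ : 0 ≤ δ)
    {c : ℕ → ℕ} (hc : IsTarget c) (h : Cls δ μ W) : GCls P rate δ μ (hit W c) := by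
  refine ⟨isRandomSet_hit h.1 c, (cls_iff (fun x => relEnt rate μ (hit W c) (ind P x)) δ hδ).2 (fun ε hε => ?_)⟩
  filter_upwards [h.2 ε hε] with x hx
  have := relEnt_hit_le (μ := μ) h.1 hc x
  linarith

/-- the probability of finitely many zeros -/
theorem fin_le {Ω : Type} [MeasurableSpace Ω] {μ : Measure Ω} [IsProbabilityMeasure μ] {W : Ω → ℕ → ℕ} {δ : ℝ} (hδ : 0 ≤ δ)
    {c : ℕ → ℕ} (hc : IsTarget c) (h : Cls δ μ W) : μ.real {ω | {p : ℕ | p.Prime ∧ W ω p = c p}.Finite} ≤ δ := by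
  have h1 := ((general P rate rates).2 δ hδ).2.1 Ω μ (hit W c) (gcls_hit hδ hc h)
  simp only [finite_eq]
  exact h1

theorem exists_fin {δ : ℝ} (hδ : 0 ≤ δ) : ∃ (Ω : Type) (_ : MeasurableSpace Ω) (μ : Measure Ω) (_ : IsProbabilityMeasure μ)
    (W : Ω → ℕ → ℕ), Cls δ μ W ∧ μ.real {ω | {p : ℕ | p.Prime ∧ W ω p = 0}.Finite} = min 1 δ := by
  obtain ⟨Ω, m, μ, hμ, A, hA, hfin⟩ := ((general P rate rates).2 δ hδ).2.2
  refine ⟨Ω × X, inferInstance, μ.prod K, inferInstance, lift A, cls_lift hδ hA, ?_⟩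
  rw [← hfin]
  have h1 : {z : Ω × X | {p : ℕ | p.Prime ∧ lift A z p = 0}.Finite} = {ω | (A ω ∩ P).Finite} ×ˢ Set.univ := by
    ext z
    rw [Set.mem_prod, Set.mem_ofPred_eq, finite_eq (lift A) (fun _ => 0) z, hit_lift]
    simp
  rw [h1, measureReal_def, Measure.prod_prod, measure_univ, mul_one, measureReal_def]

/-- **(0)** Infinitely many. -/
theorem part0 (d : ℕ → ℝ) :
    ((∀ (Ω : Type) [MeasurableSpace Ω] (μ : Measure Ω) [IsProbabilityMeasure μ] (W : Ω → ℕ → ℕ), IsFamily W →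
      (∀ᶠ x : ℕ in atTop, theta x - d x ≤ ent μ W x) → ∀ᵐ ω ∂μ, {p : ℕ | p.Prime ∧ W ω p = 0}.Infinite) ↔
      ∀ ε : ℝ, 0 < ε → ∃ᶠ x : ℕ in atTop, d x < ε * ll x) ∧
    ((∀ ε : ℝ, 0 < ε → ∃ᶠ x : ℕ in atTop, d x < ε * ll x) →
      ∀ (Ω : Type) [MeasurableSpace Ω] (μ : Measure Ω) [IsProbabilityMeasure μ] (W : Ω → ℕ → ℕ), IsFamily W →
      (∀ᶠ x : ℕ in atTop, theta x - d x ≤ ent μ W x) → ∀ c : ℕ → ℕ, IsTarget c →
        ∀ᵐ ω ∂μ, {p : ℕ | p.Prime ∧ W ω p = c p}.Infinite) := by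
  have hB : (∀ ε : ℝ, 0 < ε → ∃ᶠ x : ℕ in atTop, d x < ε * ll x) →
      ∀ (Ω : Type) [MeasurableSpace Ω] (μ : Measure Ω) [IsProbabilityMeasure μ] (W : Ω → ℕ → ℕ), IsFamily W →
      (∀ᶠ x : ℕ in atTop, theta x - d x ≤ ent μ W x) → ∀ c : ℕ → ℕ, IsTarget c →
        ∀ᵐ ω ∂μ, {p : ℕ | p.Prime ∧ W ω p = c p}.Infinite := by
    intro hd Ω _ μ _ W hW hE c hc
    simp only [finite_eq]
    refine infinite_of (isRandomSet_hit hW c) hd ?_
    filter_upwards [hE] with x hx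
    have := relEnt_hit_le (μ := μ) hW hc x
    linarith
  refine ⟨⟨fun h => ?_, fun h Ω _ μ _ W hW hE => hB h Ω μ W hW hE (fun _ => 0) isTarget_zero⟩, hB⟩
  by_contra hne
  push Not at hne
  obtain ⟨ε, hε, hev⟩ := hne
  obtain ⟨Ω, m, μ, hμ, W, hW, hfin⟩ := exists_fin (show (0 : ℝ) ≤ ε / 2 by linarith)
  have h1 := h Ω μ W hW.1 (by
    filter_upwards [hW.2 (ε / 2) (by linarith), hev] with x hx1 hx2
    have h3 : (ε / 2 + ε / 2) * ll x = ε * ll x := by ring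
    rw [h3] at hx1
    linarith)
  rw [ae_iff] at h1
  simp only [Set.not_infinite] at h1
  rw [measureReal_def, h1] at hfin
  simp only [ENNReal.toReal_zero] at hfin
  have h2 : 0 < min 1 (ε / 2) := lt_min one_pos (by linarith)
  linarith

/-- **(1)** The almost sure law. -/
theorem part1 (d : ℕ → ℝ) (hm : Monotone d) (hd : ∀ n, 0 ≤ d n) :
    ((∀ (Ω : Type) [MeasurableSpace Ω] (μ : Measure Ω) [IsProbabilityMeasure μ] (W : Ω → ℕ → ℕ), IsFamily W →
      (∀ᶠ x : ℕ in atTop, theta x - d x ≤ ent μ W x) →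
        ∀ᵐ ω ∂μ, Tendsto (fun x : ℕ => (num W (fun _ => 0) ω x : ℝ) / ll x) atTop (𝓝 1)) ↔
      Summable (fun p : ℕ => if p.Prime then d p / (p * ll p ^ 2) else 0)) ∧
    (Summable (fun p : ℕ => if p.Prime then d p / (p * ll p ^ 2) else 0) →
      ∀ (Ω : Type) [MeasurableSpace Ω] (μ : Measure Ω) [IsProbabilityMeasure μ] (W : Ω → ℕ → ℕ), IsFamily W →
      (∀ᶠ x : ℕ in atTop, theta x - d x ≤ ent μ W x) → ∀ c : ℕ → ℕ, IsTarget c →
        ∀ᵐ ω ∂μ, Tendsto (fun x : ℕ => (num W c ω x : ℝ) / ll x) atTop (𝓝 1)) := by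
  have hG := (general P rate rates).1 d hm hd
  have hB : Summable (fun p : ℕ => if p.Prime then d p / (p * ll p ^ 2) else 0) →
      ∀ (Ω : Type) [MeasurableSpace Ω] (μ : Measure Ω) [IsProbabilityMeasure μ] (W : Ω → ℕ → ℕ), IsFamily W →
      (∀ᶠ x : ℕ in atTop, theta x - d x ≤ ent μ W x) → ∀ c : ℕ → ℕ, IsTarget c →
        ∀ᵐ ω ∂μ, Tendsto (fun x : ℕ => (num W c ω x : ℝ) / ll x) atTop (𝓝 1) := by
    intro hs Ω _ μ _ W hW hE c hc
    have h1 := hG.2 ((conv_iff d).2 hs) Ω μ (hit W c) (isRandomSet_hit hW c) (by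
      filter_upwards [hE] with x hx
      have := relEnt_hit_le (μ := μ) hW hc x
      linarith)
    filter_upwards [h1] with ω hω
    simp only [cnt_hit] at hω
    exact (tendsto_iff _ 1).1 hω
  refine ⟨⟨fun h => ?_, fun h Ω _ μ _ W hW hE => hB h Ω μ W hW hE (fun _ => 0) isTarget_zero⟩, hB⟩
  rw [← conv_iff]
  refine hG.1 (fun Ω _ μ _ A hA hD => ?_)
  have h1 := h (Ω × X) (μ.prod K) (lift A) (isFamily_lift hA) (by
    filter_upwards [hD] with x hx
    have := ent_lift (μ := μ) hA x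
    linarith)
  refine ae_fst ?_
  filter_upwards [h1] with z hz
  simp only [← cnt_hit, hit_lift] at hz
  exact (tendsto_iff _ 1).2 hz

/-- **(2)** The laws of the limit. -/
theorem part2 (δ : ℝ) (hδ : 0 ≤ δ) (ν : Measure ℝ) [IsProbabilityMeasure ν] :
    (∃ (Ω : Type) (_ : MeasurableSpace Ω) (μ : Measure Ω) (_ : IsProbabilityMeasure μ) (W : Ω → ℕ → ℕ) (L : Ω → ℝ), Cls δ μ W ∧
      Measurable L ∧ μ.map L = ν ∧ ∀ᵐ ω ∂μ, Tendsto (fun x : ℕ => (num W (fun _ => 0) ω x : ℝ) / ll x) atTop (𝓝 (L ω))) ↔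
    ν (Set.Iio 0) = 0 ∧ ∫⁻ u, ENNReal.ofReal (u * Real.log u - u + 1) ∂ν ≤ ENNReal.ofReal δ := by
  have hG := ((general P rate rates).2 δ hδ).1 ν inferInstance
  rw [← hG]
  constructor
  · rintro ⟨Ω, m, μ, hμ, W, L, hW, hL, hmap, hlim⟩
    refine ⟨Ω, m, μ, hμ, hit W (fun _ => 0), L, gcls_hit hδ isTarget_zero hW, hL, hmap, ?_⟩
    filter_upwards [hlim] with ω hω
    simp only [cnt_hit]
    exact (tendsto_iff _ _).2 hω
  · rintro ⟨Ω, m, μ, hμ, A, L, hA, hL, hmap, hlim⟩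
    refine ⟨Ω × X, inferInstance, μ.prod K, inferInstance, lift A, fun z => L z.1, cls_lift hδ hA, hL.comp measurable_fst, ?_, ?_⟩
    · have h1 : (fun z : Ω × X => L z.1) = L ∘ Prod.fst := rfl
      rw [h1, ← Measure.map_map hL measurable_fst, Measure.map_fst_prod, measure_univ, one_smul]
      exact hmap
    · filter_upwards [ae_fst' hlim] with z hz
      simp only [← cnt_hit, hit_lift]
      exact (tendsto_iff _ _).1 hz

end Pool.Agent.Q158.WQ
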