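import Pool.Agent.Q120.ME.General

/-!
# The model of the Wilson primes: each prime `p` with probability `1 / p`
-/

set_option autoImplicit false

namespace Pool.Agent.Q158.WQ

open Finset Filter Pool.Agent.Q120.ME
open scoped Topology

/-- The primes. -/
def P : Set ℕ := {n | n.Prime}

/-- The probability that `n` is a Wilson prime. -/
noncomputable def rate (n : ℕ) : ℝ := 1 / n

/-- The primes below `x`. -/
def pr (x : ℕ) : Finset ℕ := (range x).filter Nat.Prime

theorem mem_pr {x n : ℕ} : n ∈ pr x ↔ n < x ∧ n.Prime := by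
  rw [pr, mem_filter, mem_range]

theorem ind_eq (x : ℕ) : ind P x = pr x := by
  classical
  ext n
  unfold ind
  rw [mem_pr, mem_filter, mem_range]
  rfl

theorem mass_eq (x : ℕ) : mass P rate x = ∑ n ∈ pr x, 1 / (n : ℝ) := by
  unfold mass
  rw [ind_eq]
  rfl

/-- `log log x`. -/
noncomputable def ll (x : ℕ) : ℝ := Real.log (Real.log x)

theorem ll_tend : Tendsto ll atTop atTop :=
  Real.tendsto_log_atTop.comp (Real.tendsto_log_atTop.comp tendsto_natCast_atTop_atTop)

theorem mass_near : ∃ C : ℝ, ∀ x : ℕ, 4 ≤ x → |mass P rate x - ll x| ≤ C := by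
  obtain ⟨C, hC⟩ := Pool.Agent.Erdos456.Mert.mertens_inv
  refine ⟨C + 1, fun x hx => ?_⟩
  have h1 := hC x (by omega)
  have h2 : (Finset.Icc 1 x).filter Nat.Prime = pr (x + 1) := by
    ext n
    rw [mem_pr, mem_filter, mem_Icc]
    constructor
    · rintro ⟨⟨_, h⟩, hp⟩
      exact ⟨by omega, hp⟩
    · rintro ⟨h, hp⟩
      exact ⟨⟨hp.one_lt.le, by omega⟩, hp⟩
  rw [h2] at h1
  have h3 : |∑ n ∈ pr (x + 1), 1 / (n : ℝ) - ∑ n ∈ pr x, 1 / (n : ℝ)| ≤ 1 := by
    have h4 : pr (x + 1) = if x.Prime then insert x (pr x) else pr x := by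
      split_ifs with h
      · ext n
        rw [mem_insert, mem_pr, mem_pr]
        constructor
        · rintro ⟨h5, h6⟩
          rcases Nat.lt_succ_iff_lt_or_eq.1 h5 with h7 | h7
          · exact Or.inr ⟨h7, h6⟩
          · exact Or.inl h7
        · rintro (h5 | h5)
          · rw [h5]; exact ⟨Nat.lt_succ_self x, h⟩
          · exact ⟨h5.1.trans (Nat.lt_succ_self x), h5.2⟩
      · ext n
        rw [mem_pr, mem_pr]
        constructor
        · rintro ⟨h5, h6⟩
          rcases Nat.lt_succ_iff_lt_or_eq.1 h5 with h7 | h7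
          · exact ⟨h7, h6⟩
          · exact absurd (h7 ▸ h6) h
        · rintro h5
          exact ⟨h5.1.trans (Nat.lt_succ_self x), h5.2⟩
    rw [h4]
    split_ifs
    · rw [sum_insert (by rw [mem_pr]; omega)]
      have h5 : (1 : ℝ) ≤ x := by exact_mod_cast (show 1 ≤ x by omega)
      rw [add_sub_cancel_right, abs_of_nonneg (by positivity), div_le_one (by linarith)]
      exact h5
    · simp
  rw [mass_eq, ll]
  have h4 := abs_add_le (∑ n ∈ pr (x + 1), 1 / (n : ℝ) - Real.log (Real.log x))
    (-(∑ n ∈ pr (x + 1), 1 / (n : ℝ) - ∑ n ∈ pr x, 1 / (n : ℝ)))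
  rw [abs_neg] at h4
  have h5 : ∑ n ∈ pr x, 1 / (n : ℝ) - Real.log (Real.log x) =
    ∑ n ∈ pr (x + 1), 1 / (n : ℝ) - Real.log (Real.log x) +
      -(∑ n ∈ pr (x + 1), 1 / (n : ℝ) - ∑ n ∈ pr x, 1 / (n : ℝ)) := by ring
  rw [h5]
  linarith

theorem mass_ratio : Tendsto (fun x : ℕ => mass P rate x / ll x) atTop (𝓝 1) := by
  obtain ⟨C, hC⟩ := mass_near
  have h1 : Tendsto (fun x : ℕ => (mass P rate x - ll x) / ll x) atTop (𝓝 0) := by
    refine squeeze_zero_norm' (a := fun x : ℕ => C / ll x) ?_ ?_
    · filter_upwards [eventually_ge_atTop 4, ll_tend.eventually_gt_atTop 0] with x hx hl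
      rw [Real.norm_eq_abs, abs_div, abs_of_pos hl]
      exact div_le_div_of_nonneg_right (hC x hx) hl.le
    · exact tendsto_const_nhds.div_atTop ll_tend
  have h2 := h1.add_const 1
  rw [zero_add] at h2
  refine h2.congr' ?_
  filter_upwards [ll_tend.eventually_gt_atTop 0] with x hl
  field_simp
  ring

theorem rates : Rates P rate where
  pos := by
    intro n hn
    have h2 : (0 : ℝ) < n := by exact_mod_cast (show n.Prime from hn).pos
    unfold rate
    positivity
  lt_one := by
    intro n hn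
    have h2 : (1 : ℝ) < n := by exact_mod_cast (show n.Prime from hn).one_lt
    unfold rate
    rw [div_lt_one (by linarith)]
    exact h2
  small := by
    intro ε hε
    have h1 : Tendsto (fun n : ℕ => 1 / (n : ℝ)) atTop (𝓝 0) := tendsto_one_div_atTop_nhds_zero_nat
    filter_upwards [h1.eventually (gt_mem_nhds hε)] with n hn _
    exact hn
  div := by
    have h1 := mass_ratio.pos_mul_atTop one_pos ll_tend
    refine h1.congr' ?_
    filter_upwards [ll_tend.eventually_gt_atTop 0] with x hl
    field_simp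

/-- counting relative to `log log x` or to the mass is the same -/
theorem tendsto_iff (f : ℕ → ℝ) (l : ℝ) : Tendsto (fun x : ℕ => f x / mass P rate x) atTop (𝓝 l) ↔
    Tendsto (fun x : ℕ => f x / ll x) atTop (𝓝 l) := by
  constructor
  · intro h
    have h1 := h.mul mass_ratio
    rw [mul_one] at h1
    refine h1.congr' ?_
    filter_upwards [ll_tend.eventually_gt_atTop 0, rates.div.eventually_gt_atTop 0] with x h2 h3
    field_simp
  · intro h
    have h1 := h.mul (mass_ratio.inv₀ one_ne_zero)
    rw [inv_one, mul_one] at h1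
    refine h1.congr' ?_
    filter_upwards [ll_tend.eventually_gt_atTop 0, rates.div.eventually_gt_atTop 0] with x h2 h3
    field_simp

/-- the classes with respect to `log log x` and to the mass are the same -/
theorem cls_iff (f : ℕ → ℝ) (δ : ℝ) (hδ : 0 ≤ δ) :
    (∀ ε : ℝ, 0 < ε → ∀ᶠ x : ℕ in atTop, f x ≤ (δ + ε) * mass P rate x) ↔
    (∀ ε : ℝ, 0 < ε → ∀ᶠ x : ℕ in atTop, f x ≤ (δ + ε) * ll x) := by
  have key : ∀ ε : ℝ, 0 < ε → ∀ᶠ x : ℕ in atTop, (δ + ε / 2) * mass P rate x ≤ (δ + ε) * ll x ∧
      (δ + ε / 2) * ll x ≤ (δ + ε) * mass P rate x := by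
    intro ε hε
    have h0 : (δ + ε / 2) / (δ + ε) < 1 := by
      rw [div_lt_one (by linarith)]
      linarith
    have h1 : 1 < (δ + ε) / (δ + ε / 2) := by
      rw [one_lt_div (by linarith)]
      linarith
    filter_upwards [mass_ratio.eventually (gt_mem_nhds h1), mass_ratio.eventually (lt_mem_nhds h0),
      ll_tend.eventually_gt_atTop 0] with x h2 h3 h4
    rw [div_lt_div_iff₀ h4 (by linarith)] at h2
    rw [div_lt_div_iff₀ (by linarith) h4] at h3
    constructor <;> nlinarith
  constructor
  · intro h ε hε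
    filter_upwards [h (ε / 2) (by linarith), key ε hε] with x h1 h2
    exact h1.trans h2.1
  · intro h ε hε
    filter_upwards [h (ε / 2) (by linarith), key ε hε] with x h1 h2
    exact h1.trans h2.2

/-- the condition of the almost sure law -/
theorem conv_iff (d : ℕ → ℝ) : Conv P rate d ↔
    Summable (fun p : ℕ => if p.Prime then d p / (p * ll p ^ 2) else 0) := by
  classical
  have hlow : ∀ᶠ x : ℕ in atTop, ll x ≤ 2 * mass P rate x ∧ mass P rate x ≤ 2 * ll x ∧ 0 < ll x ∧ 0 < mass P rate x := by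
    filter_upwards [mass_ratio.eventually (gt_mem_nhds (show (1 : ℝ) < 2 by norm_num)),
      mass_ratio.eventually (lt_mem_nhds (show (1 / 2 : ℝ) < 1 by norm_num)),
      ll_tend.eventually_gt_atTop 0, rates.div.eventually_gt_atTop 0] with x h2 h3 h4 h5
    rw [div_lt_iff₀ h4] at h2
    rw [lt_div_iff₀ h4] at h3
    exact ⟨by linarith, by linarith, h4, h5⟩
  have e1 : ∀ n : ℕ, (if n ∈ P then rate n * d n / mass P rate n ^ 2 else 0) =
      if n.Prime then d n / (n * mass P rate n ^ 2) else 0 := by
    intro n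
    have : (n ∈ P) = n.Prime := rfl
    simp only [this]
    split_ifs with h
    · unfold rate
      rw [div_mul_eq_mul_div, one_mul, div_div]
    · rfl
  unfold Conv
  simp only [e1]
  constructor
  · intro h
    refine summable_of_isBigO_nat h.norm ?_
    refine Asymptotics.IsBigO.of_bound 4 ?_
    filter_upwards [hlow] with n hn
    split_ifs with h2
    · have h3 : (0 : ℝ) < n := by exact_mod_cast h2.pos
      rw [norm_norm, Real.norm_eq_abs, Real.norm_eq_abs, abs_div, abs_div,
        abs_of_pos (show (0 : ℝ) < n * ll n ^ 2 by have := hn.2.2.1; positivity),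
        abs_of_pos (show (0 : ℝ) < n * mass P rate n ^ 2 by have := hn.2.2.2; positivity)]
      rw [← mul_div_assoc, div_le_div_iff₀ (by have := hn.2.2.1; positivity) (by have := hn.2.2.2; positivity)]
      have h4 : mass P rate n ^ 2 ≤ 4 * ll n ^ 2 := by nlinarith [hn.2.1, hn.2.2.1, hn.2.2.2]
      have h5 : 0 ≤ |d n| * n := by positivity
      nlinarith [mul_le_mul_of_nonneg_left h4 h5]
    · simp
  · intro h
    refine summable_of_isBigO_nat h.norm ?_
    refine Asymptotics.IsBigO.of_bound 4 ?_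
    filter_upwards [hlow] with n hn
    split_ifs with h2
    · have h3 : (0 : ℝ) < n := by exact_mod_cast h2.pos
      rw [norm_norm, Real.norm_eq_abs, Real.norm_eq_abs, abs_div, abs_div,
        abs_of_pos (show (0 : ℝ) < n * ll n ^ 2 by have := hn.2.2.1; positivity),
        abs_of_pos (show (0 : ℝ) < n * mass P rate n ^ 2 by have := hn.2.2.2; positivity)]
      rw [← mul_div_assoc, div_le_div_iff₀ (by have := hn.2.2.2; positivity) (by have := hn.2.2.1; positivity)]
      have h4 : ll n ^ 2 ≤ 4 * mass P rate n ^ 2 := by nlinarith [hn.1, hn.2.2.1, hn.2.2.2]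
      have h5 : 0 ≤ |d n| * n := by positivity
      nlinarith [mul_le_mul_of_nonneg_left h4 h5]
    · simp

end Pool.Agent.Q158.WQ
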